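import Pool.Agent.P.MP_e0f0cb_an.H.Sep

set_option autoImplicit false

namespace Pool.Agent.P.MP_e0f0cb_an

open WithLp

variable {A : Type*} [NonUnitalNormedRing A] [NormedSpace ℂ A] [IsScalarTower ℂ A A]
  [SMulCommClass ℂ A A] {E : Type*} [AddCommGroup E] [Module ℂ E]

/-- the action of the unitization on a module -/
def ract (π : A →ₙₐ[ℂ] Module.End ℂ E) (w : WithLp 1 (Unitization ℂ A)) (x : E) : E :=
  (ofLp w).fst • x + π (ofLp w).snd x

variable (π : A →ₙₐ[ℂ] Module.End ℂ E)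

lemma ract_mul (w w' : WithLp 1 (Unitization ℂ A)) (x : E) :
    ract π (w * w') x = ract π w (ract π w' x) := by
  simp only [ract, unitization_mul, Unitization.fst_mul, Unitization.snd_mul, map_add, map_smul,
    map_mul, LinearMap.add_apply, LinearMap.smul_apply, Module.End.mul_apply, smul_add, mul_smul]
  abel

lemma ract_add (w w' : WithLp 1 (Unitization ℂ A)) (x : E) :
    ract π (w + w') x = ract π w x + ract π w' x := by
  simp only [ract, ofLp_add, Unitization.fst_add, Unitization.snd_add, map_add, add_smul,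
    LinearMap.add_apply]
  abel

omit [IsScalarTower ℂ A A] [SMulCommClass ℂ A A] in
lemma ract_emb (b : A) (x : E) : ract π (emb b) x = π b x := by
  simp [ract, emb]

lemma ract_one (x : E) : ract π (1 : WithLp 1 (Unitization ℂ A)) x = x := by
  have h : ofLp (1 : WithLp 1 (Unitization ℂ A)) = 1 := rfl
  simp [ract, h]

lemma ract_zero (x : E) : ract π (0 : WithLp 1 (Unitization ℂ A)) x = 0 := by
  simp [ract]

omit [IsScalarTower ℂ A A] [SMulCommClass ℂ A A] in
lemma ract_zero' (w : WithLp 1 (Unitization ℂ A)) : ract π w 0 = 0 := by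
  simp [ract]

/-- the annihilator of a vector in the unitization -/
def annI (ξ : E) : Ideal (WithLp 1 (Unitization ℂ A)) where
  carrier := {w | ract π w ξ = 0}
  add_mem' := fun {w w'} h h' => by
    change ract π (w + w') ξ = 0
    rw [ract_add, h, h', add_zero]
  zero_mem' := ract_zero π ξ
  smul_mem' := fun c w h => by
    change ract π (c * w) ξ = 0
    rw [ract_mul, h, ract_zero']

lemma mem_annI (ξ : E) (w : WithLp 1 (Unitization ℂ A)) : w ∈ annI π ξ ↔ ract π w ξ = 0 := Iff.rfl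

omit [IsScalarTower ℂ A A] [SMulCommClass ℂ A A] in
lemma cyclic (h0 : ∃ a x, π a x ≠ 0)
    (hirr : ∀ F : Submodule ℂ E, (∀ a x, x ∈ F → π a x ∈ F) → F = ⊥ ∨ F = ⊤) (y : E) (hy : y ≠ 0)
    (z : E) : ∃ a, π a y = z := by
  let K : Submodule ℂ E :=
    { carrier := {x | ∀ a, π a x = 0}
      add_mem' := fun {x x'} h h' a => by rw [map_add, h a, h' a, add_zero]
      zero_mem' := fun a => map_zero _
      smul_mem' := fun c x h a => by rw [map_smul, h a, smul_zero] }
  have hK : K = ⊥ := (hirr K (fun a x hx b => by rw [hx a, map_zero])).resolve_right (fun h => by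
    obtain ⟨a, x, hx⟩ := h0
    exact hx ((show x ∈ K by rw [h]; trivial) a))
  let F : Submodule ℂ E :=
    { carrier := {x | ∃ a, π a y = x}
      add_mem' := fun {x x'} ⟨a, h⟩ ⟨a', h'⟩ => ⟨a + a', by rw [map_add, LinearMap.add_apply, h, h']⟩
      zero_mem' := ⟨0, by simp⟩
      smul_mem' := fun c x ⟨a, h⟩ => ⟨c • a, by rw [map_smul, LinearMap.smul_apply, h]⟩ }
  have hF : F = ⊤ := (hirr F (fun b x ⟨a, h⟩ => ⟨b * a, by
    rw [map_mul, Module.End.mul_apply, h]⟩)).resolve_left (fun h => by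
      have : y ∈ K := fun a => (Submodule.mem_bot ℂ).1 (h ▸ (show π a y ∈ F from ⟨a, rfl⟩))
      rw [hK] at this
      exact hy ((Submodule.mem_bot ℂ).1 this))
  exact (show z ∈ F by rw [hF]; trivial)

lemma annI_max (h0 : ∃ a x, π a x ≠ 0)
    (hirr : ∀ F : Submodule ℂ E, (∀ a x, x ∈ F → π a x ∈ F) → F = ⊥ ∨ F = ⊤) (ξ : E) (hξ : ξ ≠ 0) :
    (annI π ξ).IsMaximal := by
  rw [Ideal.isMaximal_iff]
  refine ⟨by rw [mem_annI, ract_one]; exact hξ, fun J w hIJ hw hwJ => ?_⟩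
  obtain ⟨a, ha⟩ := cyclic π h0 hirr _ hw (-ξ)
  have h1 : 1 + emb a * w ∈ annI π ξ := by
    rw [mem_annI, ract_add, ract_one, ract_mul, ract_emb, ha, add_neg_cancel]
  have h2 := J.sub_mem (hIJ h1) (J.mul_mem_left (emb a) hwJ)
  rwa [add_sub_cancel_right] at h2

lemma jac_fst (r : WithLp 1 (Unitization ℂ A)) (hr : r ∈ Ring.jacobson (WithLp 1 (Unitization ℂ A))) :
    (ofLp r).fst = 0 := by
  let f : WithLp 1 (Unitization ℂ A) →+* ℂ :=
    (Unitization.fstHom ℂ A).toRingHom.comp (unitizationAlgEquiv (𝕜 := ℂ) (A := A) ℂ).toRingEquiv.toRingHom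
  have hf : ∀ w, f w = (ofLp w).fst := fun w => rfl
  have hs : Function.Surjective f := fun c => ⟨toLp 1 (Unitization.inl c), by rw [hf]; simp⟩
  have hM := RingHom.ker_isMaximal_of_surjective f hs
  rw [Ring.jacobson_eq_sInf_isMaximal, Ideal.mem_sInf] at hr
  exact hr hM

theorem rep_inv [CompleteSpace A] (D : A →ₗ[ℂ] A) (hD : ∀ a b : A, D (a * b) = D a * b + a * D b)
    (h0 : ∃ a x, π a x ≠ 0)
    (hirr : ∀ F : Submodule ℂ E, (∀ a x, x ∈ F → π a x ∈ F) → F = ⊥ ∨ F = ⊤) (p : A)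
    (hp : π p = 0) : π (D p) = 0 := by
  ext ξ
  rcases eq_or_ne ξ 0 with rfl | hξ
  · simp
  have key := unital_thm (extD D) (extD_mul D hD) ⟨_, annI_max π h0 hirr ξ hξ⟩ (emb p) (fun w => by
    change ract π (emb p * w) ξ = 0
    rw [ract_mul, ract_emb, hp, LinearMap.zero_apply]) 1
  change ract π (emb (D p) * 1) ξ = 0 at key
  rwa [mul_one, ract_emb] at key

lemma rep_jac (h0 : ∃ a x, π a x ≠ 0)
    (hirr : ∀ F : Submodule ℂ E, (∀ a x, x ∈ F → π a x ∈ F) → F = ⊥ ∨ F = ⊤)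
    (r : WithLp 1 (Unitization ℂ A)) (hr : r ∈ Ring.jacobson (WithLp 1 (Unitization ℂ A))) :
    π (ofLp r).snd = 0 := by
  ext ξ
  rcases eq_or_ne ξ 0 with rfl | hξ
  · simp
  have h1 := jac_fst r hr
  rw [Ring.jacobson_eq_sInf_isMaximal, Ideal.mem_sInf] at hr
  have h2 : ract π r ξ = 0 := hr (annI_max π h0 hirr ξ hξ)
  rwa [ract, h1, zero_smul, zero_add] at h2

theorem rad_bound' [CompleteSpace A] (D : A →ₗ[ℂ] A)
    (hD : ∀ a b : A, D (a * b) = D a * b + a * D b) :
    ∃ C : ℝ, ∀ x : A, ∃ r ∈ Ring.jacobson (WithLp 1 (Unitization ℂ A)),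
      ‖D x - (ofLp r).snd‖ ≤ C * ‖x‖ := by
  obtain ⟨C, hC⟩ := rad_bound (extD D) (extD_mul D hD)
  refine ⟨C, fun x => ?_⟩
  obtain ⟨r, hr, h⟩ := hC (emb x)
  refine ⟨r, hr, ?_⟩
  have h1 : ‖emb x‖ = ‖x‖ := unitization_norm_inr x
  rw [h1, unitization_norm_def] at h
  refine le_trans ?_ h
  have h2 : (ofLp (extD D (emb x) - r)).snd = D x - (ofLp r).snd := by
    change ((D x : Unitization ℂ A) - ofLp r).snd = _
    rw [sub_eq_add_neg, Unitization.snd_add, Unitization.snd_neg, Unitization.snd_inr,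
      sub_eq_add_neg]
  rw [h2]
  exact le_add_of_nonneg_left (norm_nonneg _)

end Pool.Agent.P.MP_e0f0cb_an
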