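import Pool.Agent.P.MP_e0f0cb_an.Final

set_option autoImplicit false

namespace Pool.Agent.P.MP_e0f0cb_an

open Filter Topology Finset

variable {A : Type*} [NormedRing A] [NormedAlgebra ℂ A] [CompleteSpace A]

/-- a rank one corner acts by scalars -/
theorem corner_scalar (M : MX A) (e v : A) (he : e * e = e) (hv : v ∉ M.1)
    (hev : e * v - v ∈ M.1) (hR : ∀ w, w * v ∈ M.1 → w * e ∈ Ring.jacobson A) (y₀ : A) :
    ∃ l : ℂ, qm M (e * y₀ * e * v) = l • qm M v := by
  have hq : qm M v ≠ 0 := fun h => hv ((qm_eq_zero _ _).1 h)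
  have hqe : qm M (e * v) = qm M v := by rw [← sub_eq_zero, ← map_sub, qm_eq_zero]; exact hev
  have hev' : e * v ∉ M.1 := fun h => hq (by rw [← hqe, qm_eq_zero]; exact h)
  have hleft : ∀ y : Cor e he, y.1 * v ∉ M.1 → ∃ z : Cor e he, z * y = 1 := by
    intro y hy
    obtain ⟨z, hz⟩ := M.gen hy v
    have h1 : (z * y.1 - 1) * e ∈ Ring.jacobson A := hR _ (by
      have := M.1.neg_mem hz
      convert this using 1
      noncomm_ring)
    obtain ⟨U, hU⟩ := jac_unit ((Ring.jacobson A).mul_mem_left e h1)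
    have c1 : Commute e (↑U : A) := by
      rw [hU]
      change _ = _
      rw [mul_add, add_mul, ← mul_assoc, he, mul_assoc, mul_assoc, he, mul_one, one_mul]
    refine ⟨⟨e * ↑U⁻¹ * e * z * e, by simp only [← mul_assoc, he], by rw [mul_assoc, he]⟩,
      Subtype.ext ?_⟩
    change e * ↑U⁻¹ * e * z * e * y.1 = e
    have h2 : e * z * e * y.1 = U * e := by
      rw [hU, mul_assoc, y.2.1, add_mul, one_mul, mul_assoc, mul_assoc e _ e, mul_assoc _ e e, he,
        sub_mul, one_mul, mul_assoc z, y.2.2, mul_sub, he]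
      abel
    calc e * ↑U⁻¹ * e * z * e * y.1 = e * ↑U⁻¹ * (e * z * e * y.1) := by simp only [mul_assoc]
      _ = e := by rw [h2, mul_assoc, ← mul_assoc (↑U⁻¹ : A)]; simp [he]
  have hunit : ∀ y : Cor e he, y.1 * v ∉ M.1 → IsUnit y := by
    intro y hy
    obtain ⟨z, hz⟩ := hleft y hy
    have hz' : z.1 * v ∉ M.1 := fun h => by
      have h1 := hR _ h
      rw [z.2.2] at h1
      have h2 : z.1 * y.1 = e := congrArg Subtype.val hz
      have h3 : z.1 * (y.1 * v) ∈ Ring.jacobson A := Ideal.mul_mem_right _ _ h1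
      rw [← mul_assoc, h2] at h3
      exact hev' (mem_jac.1 h3 M)
    obtain ⟨z', hz''⟩ := hleft z hz'
    have e2 : z' = y := by
      calc z' = z' * (z * y) := by rw [hz, mul_one]
        _ = y := by rw [← mul_assoc, hz'', one_mul]
    exact ⟨⟨y, z, by rw [← e2, hz''], hz⟩, rfl⟩
  have : Nontrivial (Cor e he) := ⟨⟨1, 0, fun h => by
    have h1 : e = 0 := congrArg Subtype.val h
    exact hev' (by rw [h1, zero_mul]; exact M.1.zero_mem)⟩⟩
  let y : Cor e he := ⟨e * y₀ * e, by simp only [← mul_assoc, he], by rw [mul_assoc, he]⟩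
  obtain ⟨l, hl⟩ := spectrum.nonempty y
  refine ⟨l, ?_⟩
  by_contra hne
  refine hl (hunit _ (fun h => hne ?_))
  rw [Algebra.algebraMap_eq_smul_one] at h
  have h1 : (l • e - y.1) * v ∈ M.1 := h
  rw [← qm_eq_zero, sub_mul, smul_mul_assoc, map_sub, map_smul, hqe, sub_eq_zero] at h1
  exact h1.symm

/-- the separating space lies in every maximal left ideal -/
theorem sep_mem (D : A →ₗ[ℂ] A) (hD : ∀ a b, D (a * b) = D a * b + a * D b) (M : MX A) (s : A)
    (hs : ((0 : A), s) ∈ closure (D.graph : Set (A × A))) : s ∈ M.1 := by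
  by_cases hall : ∀ k, Bd D M k
  · obtain ⟨C, hC⟩ := hall 1 1
    exact (qm_eq_zero _ _).1 (sep_kill D (qm M) C (by simpa using hC) s hs)
  push Not at hall
  by_contra hc
  obtain ⟨f, v, hv, hfv, hR⟩ := rank_one hD M hall
  obtain ⟨e, he, hef⟩ := lift_idem f (mem_jac.2 (fun N => by
    have := hR (f - 1) (by rw [sub_mul, one_mul]; exact hfv) N
    rwa [sub_mul, one_mul] at this))
  have hev : e * v - v ∈ M.1 := by
    have := M.1.add_mem (mem_jac.1 (Ideal.mul_mem_right v _ hef) M) hfv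
    rwa [sub_mul, sub_add_sub_cancel] at this
  have hR' : ∀ w, w * v ∈ M.1 → w * e ∈ Ring.jacobson A := fun w hw => by
    have := (Ring.jacobson A).add_mem (mem_jac.2 (hR w hw)) ((Ring.jacobson A).mul_mem_left w hef)
    rwa [← mul_add, add_sub_cancel] at this
  have hq : 0 < ‖qm M v‖ := norm_pos_iff.2 (fun h => hv ((qm_eq_zero _ _).1 h))
  have hqe : qm M (e * v) = qm M v := by rw [← sub_eq_zero, ← map_sub, qm_eq_zero]; exact hev
  obtain ⟨b, hb⟩ := M.gen hv 1
  obtain ⟨a, ha⟩ := M.gen hc v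
  let π : A →L[ℂ] (A ⧸ M.1.restrictScalars ℂ) :=
    (qm M).comp (((ContinuousLinearMap.mul ℂ A) (e * a)).comp
      ((ContinuousLinearMap.mul ℂ A).flip (b * e * v)))
  have hπ : ∀ x, π x = qm M (e * a * (x * (b * e * v))) := fun x => rfl
  have hmul : ∀ p q : A, Bdd (fun x => qm M (p * (x * q))) := fun p q =>
    ⟨‖p‖ * ‖q‖, fun x => (qm_le _ _).trans ((norm_mul_le _ _).trans (by
      rw [mul_assoc, mul_comm ‖q‖]
      exact mul_le_mul_of_nonneg_left (norm_mul_le _ _) (norm_nonneg _)))⟩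
  choose l hl using corner_scalar M e v he hv hev hR'
  have hlb : Bdd (fun x => l (a * x * b) • qm M (D e * v)) := by
    obtain ⟨C, hC⟩ := hmul (e * a) (b * e * v)
    refine ⟨C / ‖qm M v‖ * ‖qm M (D e * v)‖, fun x => ?_⟩
    have h1 := hC x
    have h2 : e * a * (x * (b * e * v)) = e * (a * x * b) * e * v := by simp only [mul_assoc]
    simp only [h2, hl, norm_smul] at h1
    rw [norm_smul, mul_right_comm]
    refine mul_le_mul_of_nonneg_right ?_ (norm_nonneg _)
    rw [div_mul_eq_mul_div, le_div_iff₀ hq]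
    exact h1
  have hbd : Bdd (fun x => π (D x)) := by
    have key : ∀ x, π (D x) = l (a * x * b) • qm M (D e * v) - qm M (D (e * a) * (x * (b * e * v))) -
        qm M (e * a * (x * (D (b * e) * v))) := by
      intro x
      have h1 : (e * (a * x * b) * e - l (a * x * b) • e) * v ∈ M.1 := by
        rw [← qm_eq_zero, sub_mul, smul_mul_assoc, map_sub, map_smul, hl, hqe, sub_self]
      have h2 := hR' _ h1
      rw [sub_mul, smul_mul_assoc, mul_assoc _ e e, he] at h2
      have h3 := unital_thm D hD M _ (fun c => mem_jac.1 (Ideal.mul_mem_right c _ h2) M) v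
      have h4 : e * (a * x * b) * e = e * a * x * (b * e) := by simp only [mul_assoc]
      rw [map_sub, map_smul, h4, hD, hD, ← qm_eq_zero] at h3
      simp only [sub_mul, add_mul, smul_mul_assoc, map_sub, map_add, map_smul, sub_eq_zero] at h3
      rw [hπ, ← h3]
      simp only [mul_assoc]
      abel
    simp only [key]
    exact (hlb.sub (hmul _ _)).sub (hmul _ _)
  obtain ⟨C, hC⟩ := hbd
  have h0 := sep_kill D π C hC s hs
  rw [hπ, qm_eq_zero] at h0
  apply hv
  have k1 := M.1.mul_mem_left (e * a * s * b) hev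
  have k2 := M.1.mul_mem_left (e * a * s) hb
  have k3 := M.1.mul_mem_left e ha
  have := M.1.sub_mem (M.1.add_mem (M.1.add_mem (M.1.sub_mem h0 k1) k2) k3) hev
  convert this using 1
  noncomm_ring

/-- a derivation is bounded modulo the radical -/
theorem rad_bound (D : A →ₗ[ℂ] A) (hD : ∀ a b, D (a * b) = D a * b + a * D b) :
    ∃ C : ℝ, ∀ x, ∃ r ∈ Ring.jacobson A, ‖D x - r‖ ≤ C * ‖x‖ := by
  let R : Submodule ℂ A := (Ring.jacobson A).restrictScalars ℂ
  have hR : IsClosed (R : Set A) := by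
    have : (R : Set A) = ⋂ M : MX A, (M.1 : Set A) := by
      ext x
      simp only [Set.mem_iInter]
      exact mem_jac
    rw [this]
    exact isClosed_iInter fun M => Ideal.IsMaximal.isClosed (hI := M.2)
  have hb : ∃ C : ℝ, ∀ x, ‖R.mkQL (D x)‖ ≤ C * ‖x‖ := by
    by_contra h
    obtain ⟨s, hs1, hs2⟩ := sep_exists D R.mkQL h
    exact hs1 ((Submodule.Quotient.mk_eq_zero R).2 (mem_jac.2 fun M => sep_mem D hD M s hs2))
  obtain ⟨C, hC⟩ := hb
  refine ⟨C + 1, fun x => ?_⟩
  rcases eq_or_ne x 0 with rfl | hx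
  · exact ⟨0, (Ring.jacobson A).zero_mem, by simp⟩
  obtain ⟨m, hm1, hm2⟩ := Submodule.Quotient.norm_mk_lt (R.mkQL (D x)) (norm_pos_iff.2 hx)
  refine ⟨D x - m, ?_, ?_⟩
  · exact (Submodule.Quotient.eq R).1 hm1.symm
  · rw [sub_sub_cancel]
    linarith [hC x]

end Pool.Agent.P.MP_e0f0cb_an
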